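import Mathlib

namespace Pool.Agent.Results.MP_34a732_nt.Full

open Finset

/-- `u ≡ v (mod p^m)` for rationals: `(u - v) / p^m` has denominator prime to `p` -/
def cong (p m : ℕ) (u v : ℚ) : Prop := ¬ p ∣ ((u - v) / (p : ℚ) ^ m).den

instance (p m : ℕ) (u v : ℚ) : Decidable (cong p m u v) := by unfold cong; infer_instance

/-- the generalized binomial coefficient `a (a-1) ⋯ (a-k+1) / k!` -/
def bin (a : ℚ) (k : ℕ) : ℚ := (∏ i ∈ range k, (a - i)) / k.factorial

theorem result : ¬ ∀ p : ℕ, p.Prime → 11 < p → jacobiSym p 11 = 1 → p % 3 = 1 →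
    ∀ x y r : ℤ, 4 * (p : ℤ) = x ^ 2 + 11 * y ^ 2 → r * y ≡ x [ZMOD p] →
    cong p 2 (∑ k ∈ range p, bin (-1 / 3) k * bin (-1 / 6) k * (27 / 16) ^ k)
      (-(jacobiSym (-11 + r) p : ℚ) * (jacobiSym x 11 : ℚ) * (x - p / x)) := by
  intro h
  have h1 := h 31 (by norm_num) (by norm_num) (by norm_num) (by norm_num) 5 3 12 (by norm_num)
    (by decide)
  have e : jacobiSym (-11 + 12) 31 = 1 := by norm_num
  have e2 : jacobiSym 5 11 = 1 := by norm_num
  rw [e, e2] at h1
  revert h1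
  decide +kernel

end Pool.Agent.Results.MP_34a732_nt.Full
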